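import Pool.Agent.W2helper58.GU.Stm
import Pool.Agent.Y626.WG.Rep
import Pool.Agent.Y626.WG.Core

/-! Pieces `S_PH` and `S_SIG` of the project GU. -/

set_option autoImplicit false

namespace Pool.Agent.W2helper17.GU

open Pool.Agent.NPC Pool.Agent.H620R2.Gauge Pool.Agent.H591R3.PHG Pool.Agent.TH678.GC
  Pool.Agent.Y626.WG Pool.Agent.H676 Pool.Agent.W2helper58.GU Pool.Agent.H622R2.Exp
  Pool.Agent.H622R2
open Pool.Agent.TH678.RS (ev_poly)

/-! ### decision trees -/

theorem dtr_run' {J : Type} [Fintype J] [DecidableEq J] (M : Alg) (O : (J → Bool) → Oracle)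
    (hO : ∀ q, Sing (fun z => O z q)) (y : List Bool) : ∀ (n : ℕ) (a : List Bool),
    DTr n (fun z => decide (M.run (O z) y n a = some [true])) := by
  intro n
  induction n with
  | zero => intro a; exact ⟨false, fun z => by simp [Alg.run]⟩
  | succ n ih =>
    intro a
    rcases hq : M.D (pairBits y a) with _ | ⟨c, q⟩
    · exact DTr.const ⟨false, fun z => by simp [Alg.run, hq]⟩
    · cases c with
      | true => exact DTr.const ⟨decide (q = [true]), fun z => by simp [Alg.run, hq]⟩
      | false =>
        rcases hO q with ⟨b, hb⟩ | ⟨j, w, hw⟩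
        · have h2 : (fun z => decide (M.run (O z) y (n + 1) a = some [true])) =
              fun z => decide (M.run (O z) y n (a ++ [b]) = some [true]) := by
            funext z
            simp only [Alg.run, hq, hb]
          rw [h2]
          exact (ih _).succ
        · refine Or.inr ⟨j, fun b => ?_⟩
          have h1 := DTr_update (ih (a ++ [w b])) j b
          have h2 : (fun z => decide (M.run (O (Function.update z j b)) y (n + 1) a =
              some [true])) =
              fun z => decide (M.run (O (Function.update z j b)) y n (a ++ [w b]) =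
                some [true]) := by
            funext z
            simp only [Alg.run, hq, hw, Function.update_self]
          rw [h2]
          exact h1

theorem acc_iff (M : Alg) (A : Oracle) (y : List Bool) :
    acc M A y = [true] ↔ M.out A y = some [true] := by
  unfold acc
  rcases M.out A y with _ | z <;> simp

theorem quant_qf {J : Type} (M : Alg) (O : (J → Bool) → Oracle) (m : ℕ) (z : J → Bool) :
    ∀ (k : ℕ) (b : Bool) (y : List Bool),
    (Quant m (acc M (O z)) k b y ↔
      QF m (fun y z => decide (M.out (O z) y = some [true])) k b y z = true) := by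
  intro k
  induction k with
  | zero =>
    intro b y
    simp only [Quant, QF, decide_eq_true_eq]
    exact acc_iff M (O z) y
  | succ k ih =>
    intro b y
    cases b with
    | true => simp only [Quant, QF, decide_eq_true_eq, ih]
    | false => simp only [Quant, QF, decide_eq_true_eq, ih]

/-! ### numbers -/

theorem eventually_small (Q : Polynomial ℕ) (L : ℕ) : ∃ u : ℕ, 1 ≤ u ∧ L ≤ u ∧ Q.eval u < 2 ^ u := by
  obtain ⟨d, _, hd⟩ := YAux.poly_bound Q
  obtain ⟨u, h1, h2⟩ := ((ev_poly (2 ^ d) d).and (Filter.eventually_ge_atTop (L + 1))).exists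
  refine ⟨u, by omega, by omega, lt_of_le_of_lt (hd u) (lt_of_le_of_lt ?_ h1)⟩
  rw [← mul_pow]
  exact Nat.pow_le_pow_left (by omega) d

theorem real_bound {t a u : ℕ} (hu : 1 ≤ u) (h : a + t + 2 ≤ 2 ^ (2 * u)) :
    (t : ℝ) * (2 ^ a * (1 / 2) ^ (2 ^ (2 * u) + 1)) + 3 * (1 / 2) ^ (2 ^ u) < 1 := by
  set b : ℕ := 2 ^ (2 * u) with hb
  have h4 : (t : ℝ) ≤ 2 ^ t := by exact_mod_cast (Nat.lt_two_pow_self (n := t)).le
  have h5 : (t : ℝ) * (2 ^ a * (1 / 2) ^ (b + 1)) ≤ 1 / 8 := by
    have h6 : (2 : ℝ) ^ (a + t + 2) ≤ 2 ^ b := pow_le_pow_right₀ (by norm_num) h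
    have h7 : (0 : ℝ) < 2 ^ b := by positivity
    have h8 : (1 / 2 : ℝ) ^ (b + 1) = 1 / (2 ^ b * 2) := by
      rw [one_div, inv_pow, pow_succ, one_div]
    rw [h8]
    have h9 : (t : ℝ) * 2 ^ a ≤ 2 ^ b / 4 := by
      have h10 : (t : ℝ) * 2 ^ a ≤ 2 ^ t * 2 ^ a := by gcongr
      have h11 : (2 : ℝ) ^ (a + t + 2) = 2 ^ t * 2 ^ a * 4 := by
        rw [pow_add, pow_add]; ring
      linarith
    have h10 : (t : ℝ) * (2 ^ a * (1 / (2 ^ b * 2))) = t * 2 ^ a / (2 ^ b * 2) := by ring
    rw [h10, div_le_iff₀ (by positivity)]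
    linarith
  have h6 : 3 * (1 / 2 : ℝ) ^ (2 ^ u) ≤ 3 / 4 := by
    have h7 : (1 / 2 : ℝ) ^ (2 ^ u) ≤ (1 / 2) ^ 2 := by
      refine pow_le_pow_of_le_one (by norm_num) (by norm_num) ?_
      calc 2 = 2 ^ 1 := by norm_num
        _ ≤ 2 ^ u := Nat.pow_le_pow_right (by norm_num) (by omega)
    norm_num at h7 ⊢
    linarith
  linarith

open Classical in
/-- the oracle for given bits -/
noncomputable def Az (B₀ : Oracle) (L : ℕ) {X : Type} (xs : X → List Bool) (as : List ℕ)
    (ω : Idx X (pw as) → Bool) : Oracle := fun v =>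
  if v.length ≤ L then B₀ v
  else if h : ∃ g, addr xs as g = v then !(ω h.choose) else false

theorem sing_Az (B₀ E : Oracle) (L : ℕ) {X : Type} (xs : X → List Bool) (as : List ℕ)
    (s : Idx X (pw as) → Option Bool) (q : List Bool) :
    Sing (fun z => join (Az B₀ L xs as (val s z)) E q) := by
  rcases q with _ | ⟨b, v⟩
  · exact Or.inl ⟨false, fun _ => rfl⟩
  cases b with
  | true => exact Or.inl ⟨E v, fun _ => rfl⟩
  | false =>
    show Sing (fun z => Az B₀ L xs as (val s z) v)
    unfold Az
    by_cases h1 : v.length ≤ L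
    · simp only [if_pos h1]
      exact Or.inl ⟨B₀ v, fun _ => rfl⟩
    · simp only [if_neg h1]
      by_cases h2 : ∃ g, addr xs as g = v
      · simp only [dif_pos h2]
        unfold val
        rcases h : s h2.choose with _ | b
        · exact Or.inr ⟨h2.choose, fun b => !b, fun z => by simp⟩
        · exact Or.inl ⟨!b, fun z => by simp⟩
      · simp only [dif_neg h2]
        exact Or.inl ⟨false, fun _ => rfl⟩

theorem Az_addr {B₀ : Oracle} {L : ℕ} {X : Type} {xs : X → List Bool} (hx : Function.Injective xs)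
    {l : ℕ} (hl : ∀ j, (xs j).length = l) (hL : L < l) (as : List ℕ)
    (ω : Idx X (pw as) → Bool) (g : Idx X (pw as)) :
    Az B₀ L xs as ω (addr xs as g) = !(ω g) := by
  unfold Az
  have h0 : ¬ (addr xs as g).length ≤ L := by
    rw [LangTrAux.length_addr xs l hl]
    omega
  have h : ∃ g', addr xs as g' = addr xs as g := ⟨g, rfl⟩
  rw [if_neg h0, dif_pos h]
  have h2 : h.choose = g := LangTrAux.addr_inj xs hx l hl as h.choose_spec
  rw [h2]

theorem s_PH : S_PH := by
  classical
  intro E k M p B₀ L
  set c₀ : ℕ := 1025 * (k + 1) + 15 with hc₀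
  set R : Polynomial ℕ := Polynomial.C c₀ * Polynomial.X + Polynomial.C k *
    (Polynomial.C 2 * p.comp (Polynomial.C c₀ * Polynomial.X) + Polynomial.C 1) with hR
  obtain ⟨u, hu1, hL, hQ⟩ := eventually_small
    (M.p.comp R + R + Polynomial.C (2 + k + 2)) L
  have hReval : R.eval u = c₀ * u + k * (2 * p.eval (c₀ * u) + 1) := by
    rw [hR]
    simp only [Polynomial.eval_add, Polynomial.eval_mul, Polynomial.eval_C, Polynomial.eval_X,
      Polynomial.eval_comp]
  have hQ' : M.p.eval (R.eval u) + R.eval u + (2 + k + 2) < 2 ^ u := by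
    simpa only [Polynomial.eval_add, Polynomial.eval_C, Polynomial.eval_comp] using hQ
  have h2u : 2 ^ u ≤ 2 ^ (2 * u) := Nat.pow_le_pow_right (by norm_num) (by omega)
  obtain ⟨as, has1, has2, s, hs⟩ := core k (n := 8 * u) (u := u) (by omega) (le_refl _)
  set xs : Fin (2 ^ (u + 11)) → List Bool := fun j => enc as 1 (bitsOf (u + 11) j.val) with hxs
  set l : ℕ := 2 * as.sum + as.length + 2 * 1 + 1 + (u + 11) with hl
  have hlen : ∀ j, (xs j).length = l := by
    intro j
    rw [hxs]
    simp only
    rw [enc_len, length_bitsOf]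
  have hinj : Function.Injective xs := by
    intro j j' h
    exact Fin.ext (bitsOf_inj j.2 j'.2 (enc_inj as 1 h))
  have hsum : as.sum ≤ (k + 1) * (512 * u) := by
    have h1 := List.sum_le_card_nsmul as (64 * (8 * u)) has2
    rw [has1, smul_eq_mul] at h1
    have h2 : 64 * (8 * u) = 512 * u := by ring
    rw [h2] at h1
    exact h1
  have hl1 : l ≤ c₀ * u := by
    rw [hl, has1, hc₀]
    nlinarith
  have hl2 : L < l := by rw [hl]; omega
  set m : ℕ := p.eval l with hm
  have hm1 : m ≤ p.eval (c₀ * u) := eval_mono p hl1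
  have hlm : l + k * (2 * m + 1) ≤ R.eval u := by
    rw [hReval]
    have := Nat.mul_le_mul_left k (show 2 * m + 1 ≤ 2 * p.eval (c₀ * u) + 1 by omega)
    omega
  set O : (Idx (Fin (2 ^ (u + 11))) (pw as) → Bool) → Oracle :=
    fun z => join (Az B₀ L xs as (val s z)) E with hO
  obtain ⟨z, j, hzj⟩ := hs m l (fun y z => decide (M.out (O z) y = some [true]))
    (fun y hy => by
      have h1 := dtr_run' M O (fun q => sing_Az B₀ E L xs as s q) y (M.p.eval y.length) []
      have h3 : M.p.eval y.length ≤ M.p.eval (R.eval u) := eval_mono _ (hy.trans hlm)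
      exact h1.mono (by omega))
    xs (fun j => (hlen j).le) (real_bound hu1 (by omega))
  refine ⟨Az B₀ L xs as (val s z), fun v hv => if_pos hv, xs j, ?_⟩
  have h1 : (Quant (p.eval (xs j).length) (acc M (join (Az B₀ L xs as (val s z)) E)) k true (xs j) ↔
      Tr (pw as) (val s z) j = true) := by
    rw [hlen j, quant_qf M O m z k true (xs j), hzj]
  have h2 : (xs j ∈ lang k (Az B₀ L xs as (val s z)) ↔ Tr (pw as) (val s z) j = false) := by
    have h3 := mem_lang_iff (Az B₀ L xs as (val s z)) k as has1 1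
      (fun j : Fin (2 ^ (u + 11)) => bitsOf (u + 11) j.val) j
    rw [show xs j = enc as 1 (bitsOf (u + 11) j.val) from rfl, h3]
    have h4 : Tr (1 :: pw as) (leaves (fun j : Fin (2 ^ (u + 11)) =>
        enc as 1 (bitsOf (u + 11) j.val)) as 1 (Az B₀ L xs as (val s z))) j =
        Tr (pw as) (val s z) j := by
      show Tr (pw as) (fun g => decide (∀ i : Fin 1, Az B₀ L xs as (val s z)
        (addr xs as g ++ List.replicate i.val true) = false)) j = _
      congr 1
      funext g
      have h5 : ∀ i : Fin 1, Az B₀ L xs as (val s z)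
          (addr xs as g ++ List.replicate i.val true) = !(val s z g) := by
        intro i
        have : i.val = 0 := by omega
        rw [this, List.replicate_zero, List.append_nil]
        exact Az_addr hinj hlen hl2 as _ g
      simp only [h5]
      cases val s z g <;> simp
    rw [h4]
  rw [h1, h2]
  cases Tr (pw as) (val s z) j <;> simp

/-! ### the inclusion -/

theorem isFP_Ver' (k : ℕ) (e : Bool) (A E : Oracle) : IsFP (join A E) (LangSig.Ver k e A) := by
  have h1 : Poly (fun p : List Bool × List Bool => p.2.all (fun b => !b)) :=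
    Poly.all (p := fun _ b => !b) (Poly.snd Poly.id) (Poly.not (Poly.snd Poly.id))
  have h2 : Poly (fun p : List Bool × List Bool => [decide (p.2.all (fun b => !b) = e)]) :=
    Poly.cons (Poly.decide_eq h1 (NPC.Poly.const e)) (NPC.Poly.const [])
  have h3 : Poly (fun y : List Bool => (LangSig.Qs k y).map (fun q => false :: q)) :=
    NPC.Poly.map (F := fun _ q => false :: q) (LangSig.poly_Qs k)
      (Poly.cons (NPC.Poly.const false) (Poly.snd Poly.id))
  have h4 := IsFP.tt (A := join A E) (H := fun p => [decide (p.2.all (fun b => !b) = e)]) h3 h2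
  refine (congrArg (IsFP (join A E)) (funext fun y => ?_)).mp h4
  unfold LangSig.Ver
  rw [List.map_map]
  rfl

theorem s_SIG : S_SIG := by
  intro A E k
  refine ⟨LangSig.Ver (k + 1) (!(bot true (k + 1))) A, Polynomial.X, isFP_Ver' _ _ _ _, fun x => ?_⟩
  rw [LangSig.quant_iff A (k + 1) _ _ (k + 1) 0 true x x x (by omega) rfl (by simp)
    (by rw [Bool.not_not])]
  rfl

end Pool.Agent.W2helper17.GU
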